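import Pool.Agent.helper48.CG.Spec

set_option autoImplicit false

namespace Pool.Agent.helper48.CG

open Equiv Finset Function Pool.Agent.helper48.PP

lemma IN3_vals (f : ℕ → ℕ) (hf : ∀ c, f (c + 1) ≤ f c) (q : ℕ) :
    ((Finset.range (q + 1)).image f).card ≤
      ((Finset.range q).filter fun c => f (c + 1) < f c).card + 1 := by
  induction q with
  | zero => simp
  | succ q ih =>
    rw [Finset.range_add_one, Finset.image_insert]
    by_cases h : f (q + 1) < f q
    · have h1 : ((Finset.range (q + 1)).filter fun c => f (c + 1) < f c).card =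
          ((Finset.range q).filter fun c => f (c + 1) < f c).card + 1 := by
        rw [Finset.range_add_one, Finset.filter_insert, if_pos h, Finset.card_insert_of_notMem]
        simp
      have h2 := Finset.card_insert_le (f (q + 1)) ((Finset.range (q + 1)).image f)
      omega
    · have h1 : f (q + 1) = f q := le_antisymm (hf q) (not_lt.mp h)
      have h2 : f (q + 1) ∈ (Finset.range (q + 1)).image f := by
        rw [h1]
        exact Finset.mem_image_of_mem f (by simp)
      rw [Finset.insert_eq_of_mem h2]
      have h3 : ((Finset.range q).filter fun c => f (c + 1) < f c).card ≤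
          ((Finset.range (q + 1)).filter fun c => f (c + 1) < f c).card := by
        apply Finset.card_le_card
        apply Finset.filter_subset_filter
        exact Finset.range_subset_range.mpr (Nat.le_succ q)
      omega

theorem IN3 (hHG : HG_stmt) : IN3_stmt := by
  intro b q d y v a ha V hV
  obtain ⟨-, hmono, -, -, -, -⟩ := hHG y v
  set B : Finset (Fin (q + d)) := Finset.univ.image fun i : Fin d => V (Sum.inr i) with hB
  have hmemB : ∀ z : Fin (q + d), z ∈ B ↔ ∃ i : Fin d, V (Sum.inr i) = z := by
    intro z; simp [hB]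
  -- between two new elements of the same row gap there are only new elements
  have hbetween : ∀ (i i' : Fin d) (w : Fin (q + d)), hgt y v (a i) = hgt y v (a i') →
      V (Sum.inr i) < w → w < V (Sum.inr i') → w ∈ B := by
    intro i i' w hH h1 h2
    obtain ⟨s, rfl⟩ := V.surjective w
    rcases s with u | j
    · exfalso
      rw [hV] at h1 h2
      simp only [ivk] at h1 h2
      rw [← hH] at h2
      have hi : (i : ℕ) < d := i.2
      have hlt : (v u : ℕ) < hgt y v (a i) := by
        by_contra hcon
        push Not at hcon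
        have := Nat.mul_le_mul_left (d + 1) hcon
        omega
      have := Nat.mul_le_mul_left (d + 1) (Nat.succ_le_of_lt hlt)
      rw [Nat.mul_succ] at this
      omega
    · exact (hmemB _).mpr ⟨j, rfl⟩
  set R : Finset ℕ := (Finset.range (q + 1)).image (fun c => hgt y v c) with hR
  have hRcard : R.card ≤ (corn y v).card + 1 := by
    have h1 := IN3_vals (fun c => hgt y v c) (fun c => hmono c (c + 1) (Nat.le_succ c)) q
    have h2 : ((Finset.range q).filter fun c => hgt y v (c + 1) < hgt y v c).card ≤
        (corn y v).card := by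
      have h3 : ((Finset.range q).filter fun c => hgt y v (c + 1) < hgt y v c) ⊆
          (corn y v).image (fun c : Fin q => (c : ℕ)) := by
        intro c hc
        rw [Finset.mem_filter, Finset.mem_range] at hc
        rw [Finset.mem_image]
        refine ⟨⟨c, hc.1⟩, ?_, rfl⟩
        simp only [corn, Finset.mem_filter, Finset.mem_univ, true_and]
        exact hc.2
      exact (Finset.card_le_card h3).trans Finset.card_image_le
    exact h1.trans (by omega)
  have hRmem : ∀ i : Fin d, hgt y v (a i) ∈ R := by
    intro i
    rw [hR, Finset.mem_image]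
    exact ⟨(a i : ℕ), Finset.mem_range.mpr (a i).2, rfl⟩
  -- starts and ends
  set S : Finset ℕ := (Finset.range (q + d + 1)).filter fun x =>
    (∃ z ∈ B, (z : ℕ) = x) ∧ ¬ ∃ z ∈ B, (z : ℕ) + 1 = x with hS
  set E : Finset ℕ := (Finset.range (q + d + 1)).filter fun x =>
    (¬ ∃ z ∈ B, (z : ℕ) = x) ∧ ∃ z ∈ B, (z : ℕ) + 1 = x with hE
  have hsub : bd B ⊆ S ∪ E := by
    intro x hx
    simp only [bd, Finset.mem_filter] at hx
    rw [Finset.mem_union]
    rcases hx.2 with h | h
    · left; rw [hS, Finset.mem_filter]; exact ⟨hx.1, h⟩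
    · right; rw [hE, Finset.mem_filter]; exact ⟨hx.1, h⟩
  have hScard : S.card ≤ R.card := by
    have h1 : ∀ x ∈ S, ∃ H, H ∈ R ∧ ∃ i : Fin d, (V (Sum.inr i) : ℕ) = x ∧ hgt y v (a i) = H := by
      intro x hx
      rw [hS, Finset.mem_filter] at hx
      obtain ⟨z, hz, hzx⟩ := hx.2.1
      obtain ⟨i, hi⟩ := (hmemB z).mp hz
      exact ⟨hgt y v (a i), hRmem i, i, by rw [hi]; exact hzx, rfl⟩
    choose! f hf using h1
    have hkey : ∀ x ∈ S, ∀ x' ∈ S, x < x' → f x ≠ f x' := by
      intro x hx x' hx' hlt heq
      obtain ⟨-, i, hi, hiH⟩ := hf x hx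
      obtain ⟨-, i', hi', hiH'⟩ := hf x' hx'
      rw [hS, Finset.mem_filter] at hx'
      have hw : x' - 1 < q + d := by
        have := (V (Sum.inr i')).2
        omega
      have hnot : (⟨x' - 1, hw⟩ : Fin (q + d)) ∉ B := by
        intro hmem
        exact hx'.2.2 ⟨_, hmem, by simp only; omega⟩
      have hne : x ≠ x' - 1 := by
        intro hxe
        apply hnot
        rw [hmemB]
        exact ⟨i, Fin.ext (by simp only; omega)⟩
      apply hnot
      apply hbetween i i' _ (by rw [hiH, hiH', heq])
      · rw [Fin.lt_def]; simp only; omega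
      · rw [Fin.lt_def]; simp only; omega
    apply Finset.card_le_card_of_injOn f
    · intro x hx; exact (hf x hx).1
    · intro x hx x' hx' heq
      rcases lt_trichotomy x x' with h | h | h
      · exact absurd heq (hkey x hx x' hx' h)
      · exact h
      · exact absurd heq.symm (hkey x' hx' x hx h)
  have hEcard : E.card ≤ R.card := by
    have h1 : ∀ x ∈ E, ∃ H, H ∈ R ∧
        ∃ i : Fin d, (V (Sum.inr i) : ℕ) + 1 = x ∧ hgt y v (a i) = H := by
      intro x hx
      rw [hE, Finset.mem_filter] at hx
      obtain ⟨z, hz, hzx⟩ := hx.2.2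
      obtain ⟨i, hi⟩ := (hmemB z).mp hz
      exact ⟨hgt y v (a i), hRmem i, i, by rw [hi]; exact hzx, rfl⟩
    choose! f hf using h1
    have hkey : ∀ x ∈ E, ∀ x' ∈ E, x < x' → f x ≠ f x' := by
      intro x hx x' hx' hlt heq
      obtain ⟨-, i, hi, hiH⟩ := hf x hx
      obtain ⟨-, i', hi', hiH'⟩ := hf x' hx'
      rw [hE, Finset.mem_filter] at hx
      have hw : x < q + d := by
        have := (V (Sum.inr i')).2
        omega
      have hnot : (⟨x, hw⟩ : Fin (q + d)) ∉ B := by
        intro hmem
        exact hx.2.1 ⟨_, hmem, rfl⟩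
      have hne : x ≠ x' - 1 := by
        intro hxe
        apply hnot
        rw [hmemB]
        exact ⟨i', Fin.ext (by simp only; omega)⟩
      apply hnot
      apply hbetween i i' _ (by rw [hiH, hiH', heq])
      · rw [Fin.lt_def]; simp only; omega
      · rw [Fin.lt_def]; simp only; omega
    apply Finset.card_le_card_of_injOn f
    · intro x hx; exact (hf x hx).1
    · intro x hx x' hx' heq
      rcases lt_trichotomy x x' with h | h | h
      · exact absurd heq (hkey x hx x' hx' h)
      · exact h
      · exact absurd heq.symm (hkey x' hx' x hx h)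
  calc (bd B).card ≤ (S ∪ E).card := Finset.card_le_card hsub
    _ ≤ S.card + E.card := Finset.card_union_le S E
    _ ≤ 2 * ((corn y v).card + 1) := by omega

end Pool.Agent.helper48.CG
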